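import Pool.Agent.Y274.OG.Geom3

/-!
The theorem for quasi-projective varieties from the theorem for curves.
-/

set_option autoImplicit false

namespace Pool.Agent.Y274.OG

open Filter Metric Set Topology MvPolynomial Pool.Agent.Y192.OG Pool.Agent.W603.BP
open Pool.Agent.W602.Cov.R (BiPoly BiHom BiSet biHom_rename)

theorem t_geo : St_dord → St_eval → St_icl → St_geo := by
  intro hdord heval hicl K _ _ n q y x Q gQ hy hx hgQ hQ R j f G κ s μ m h hfg hj hint hjG hval
    hcurves hμ N X D hoff L _ _ a b hF hD halg σ hσ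
  classical
  -- the coordinates
  have hb : ∀ i, b i ≠ 0 := by
    obtain ⟨k0, hk0⟩ := Function.ne_iff.mp hF.mem.2.1
    intro i h0
    have h1 := hσ i k0
    rw [h0, mul_zero] at h1
    exact mul_ne_zero ((map_ne_zero σ).mpr (hy i)) hk0 h1
  let xb : Fin n → Lˣ := fun i => Units.mk0 (b i.succ / b 0) (div_ne_zero (hb _) (hb _))
  have hxb : ∀ i, (xb i : L) = b i.succ / b 0 := fun i => rfl
  have hσx : ∀ i, σ (x i : K) = (xb i : L) := by
    intro i
    rw [hx, map_div₀, hxb, div_eq_div_iff ((map_ne_zero σ).mpr (hy 0)) (hb 0), hσ i.succ 0,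
      mul_comm]
  have hσe : ∀ g, σ (ep x g) = ep xb g := by
    intro g
    induction g using AddMonoidAlgebra.induction_linear with
    | zero => rw [map_zero, map_zero, map_zero]
    | add f g hf hg => rw [map_add, map_add, map_add, hf, hg]
    | single m c =>
      rw [ep_single, ep_single, map_smul]
      congr 1
      unfold xm
      rw [Units.coe_prod, Units.coe_prod, map_prod]
      refine Finset.prod_congr rfl fun i _ => ?_
      rw [Units.val_zpow_eq_zpow_val, Units.val_zpow_eq_zpow_val, map_zpow₀, hσx]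
  obtain ⟨B0, E0, E0', hB0, hB0ne, hB0ev⟩ := heval N n X L a b hF (R.map σ) (hfg.map σ)
  choose Dg mm cc hrel using fun i j => Pool.Agent.TH152.HY.exists_rel hF halg i j
  obtain ⟨k, hk⟩ := hformK G
  obtain ⟨P, hP1, hP2⟩ := hk k k le_rfl le_rfl
  let W : MvPolynomial (Fin (n + 1)) ℂ := (P * ∏ i : Fin (n + 1), MvPolynomial.X i) *
    ∏ i : Fin (N + 1), ∏ j : Fin (N + 1), cc i j (mm i j)
  obtain ⟨E, hWh⟩ : ∃ E, W.IsHomogeneous E :=
    ⟨_, (hP1.mul (IsHomogeneous.prod _ _ _ fun i _ => isHomogeneous_X ℂ i)).mul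
      (IsHomogeneous.prod _ _ _ fun i _ => IsHomogeneous.prod _ _ _ fun j _ =>
        (hrel i j).1.hom _ le_rfl)⟩
  have hbW : aeval b W ≠ 0 := by
    simp only [W, map_mul, map_prod, aeval_X]
    rw [hP2 L b xb hb hxb, ← hσe, ← hj]
    refine mul_ne_zero (mul_ne_zero (mul_ne_zero (mul_ne_zero (pow_ne_zero _ (hb 0))
      (Finset.prod_ne_zero_iff.mpr fun i _ => pow_ne_zero _ (hb _))) ?_)
      (Finset.prod_ne_zero_iff.mpr fun i _ => hb i))
      (Finset.prod_ne_zero_iff.mpr fun i _ => Finset.prod_ne_zero_iff.mpr fun j _ => (hrel i j).2)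
    refine (map_ne_zero σ).mpr fun h0 => hjG ?_
    exact Subtype.ext h0
  have hWc : ∀ v : Fin (n + 1) → ℂ, eval v W ≠ 0 → (∀ i, v i ≠ 0) ∧ lev G (tor v) ≠ 0 ∧
      ∀ i j, eval v (cc i j (mm i j)) ≠ 0 := by
    intro v hv
    simp only [W, map_mul, map_prod, eval_X] at hv
    have h1 := left_ne_zero_of_mul hv
    have h2 := right_ne_zero_of_mul hv
    have h3 := left_ne_zero_of_mul h1
    have h4 : ∀ i, v i ≠ 0 := fun i =>
      Finset.prod_ne_zero_iff.mp (right_ne_zero_of_mul h1) i (Finset.mem_univ i)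
    refine ⟨h4, ?_, fun i j => Finset.prod_ne_zero_iff.mp (Finset.prod_ne_zero_iff.mp h2 i
      (Finset.mem_univ i)) j (Finset.mem_univ j)⟩
    have e1 := hP2 ℂ v (fun i => Units.mk0 (v i.succ / v 0) (div_ne_zero (h4 _) (h4 _))) h4
      (fun i => rfl)
    have e2 : eval v P = aeval v P := rfl
    rw [e2, e1, ← lev_ep] at h3
    exact right_ne_zero_of_mul h3
  have hBh : BiHom (B0 * rename Sum.inr W : BiPoly N n) (E0 + 0) (E0' + E) := by
    have := IsWeightedHomogeneous.mul hB0 (biHom_rename (N := N) hWh)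
    exact this
  have hPic : Pool.Agent.TH152.HY.PicardOff X D (B0 * rename Sum.inr W) := by
    rintro u v huv ⟨z0, hz0, hne⟩
    have hu := fun j => Pool.Agent.W601.PH.an_of_diffOn huv.diffu j
    have hmem : ∀ z ∈ PB 1, Pool.Agent.TH152.HY.QMem X D (u z) (v z) :=
      fun z hz => huv.mem z (mem_disc.mpr hz)
    rw [map_mul] at hne
    have hne1 := left_ne_zero_of_mul hne
    have hne2 : eval (v z0) W ≠ 0 := by
      have h1 := right_ne_zero_of_mul hne
      have h2 := Pool.Agent.TH152.HY.aeval_inr (N := N) W (u z0) (v z0)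
      intro h0
      apply h1
      have h3 : aeval (v z0) W = (0 : ℂ) := h0
      rw [h3] at h2
      exact h2
    obtain ⟨h1, h2, h3⟩ := hWc _ hne2
    have hE : Extends v := disc_geo hdord hicl hgQ hQ hj hint hval hcurves hμ hoff hb σ xb hxb hσe
      hB0ev huv ⟨z0, hz0, h1, h2, hne1⟩
    exact ⟨Pool.Agent.W601.PH.extends_lift (X := Pool.Agent.TH152.HY.conv X) hu
      (fun z hz => (hmem z hz).1) hE (mem_disc.mp hz0)
      (Pool.Agent.TH152.HY.fib_finite (fun i j => (hrel i j).1) h3), hE⟩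
  refine ⟨B0 * rename Sum.inr W, E0 + 0, E0' + E, hBh, ?_, hPic,
    Pool.Agent.TH152.HY.brody_of_picard hPic⟩
  -- a point of `X - D`
  have h1 : ∃ F ∈ D.eqs, aeval (Sum.elim a b) F ≠ 0 := by
    by_contra hcon
    push Not at hcon
    exact hD ⟨hF.mem.1, hF.mem.2.1, hcon⟩
  obtain ⟨F, hFD, hFab⟩ := h1
  obtain ⟨e, e', he⟩ := D.hom F hFD
  have h2 : BiHom (F * (B0 * rename Sum.inr W) : BiPoly N n) (e + (E0 + 0)) (e' + (E0' + E)) := by
    have := IsWeightedHomogeneous.mul he hBh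
    exact this
  by_contra hcon
  push Not at hcon
  have h3 := (hF.van _ _ _ h2).2 (fun u v huv => by
    rw [map_mul]
    by_cases hFv : eval (Sum.elim u v) F = 0
    · rw [hFv, zero_mul]
    · rw [hcon u v ⟨huv, fun hd => hFv (hd.2.2 F hFD)⟩, mul_zero])
  rw [map_mul, map_mul, Pool.Agent.TH152.HY.aeval_inr] at h3
  exact mul_ne_zero hFab (mul_ne_zero hB0ne hbW) h3

end Pool.Agent.Y274.OG
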