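import Pool.Agent.Y192.OG.StG
import Pool.Agent.Y192.OG.Geo
import Pool.Agent.TH152.HY.QMain

/-!
The theorem for quasi-projective varieties from the theorem for curves: algebraic preparations.
-/

set_option autoImplicit false

namespace Pool.Agent.Y274.OG

open MvPolynomial Pool.Agent.Y192.OG
open Pool.Agent.W602.Cov.R (BiPoly BiHom BiSet)

section forms

variable {n : ℕ}

/-- the value of a Laurent polynomial at complex units -/
theorem lev_ep (g : Lau n) (xu : Fin n → ℂˣ) : lev g (fun i => (xu i : ℂ)) = ep xu g := by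
  induction g using AddMonoidAlgebra.induction_linear with
  | zero => rw [map_zero, lev_zero]
  | add f g hf hg => rw [map_add, lev_add, hf, hg]
  | single m a =>
    rw [lev_single, ep_single, smul_eq_mul]
    congr 1
    unfold xm
    rw [Units.coe_prod]
    exact Finset.prod_congr rfl fun i _ => by rw [Units.val_zpow_eq_zpow_val]

theorem zpow_sum' {M ι : Type} [Field M] (s : Finset ι) {x : M} (hx : x ≠ 0) (f : ι → ℤ) :
    x ^ (∑ i ∈ s, f i) = ∏ i ∈ s, x ^ f i := by
  classical
  induction s using Finset.induction_on with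
  | empty => simp
  | insert a s ha ih => rw [Finset.sum_insert ha, Finset.prod_insert ha, zpow_add₀ hx, ih]

/-- a homogeneous polynomial with the same values as a Laurent polynomial, over all fields -/
theorem hformK (g : Lau n) : ∃ k : ℕ, ∀ a b : ℕ, k ≤ a → k ≤ b →
    ∃ (P : MvPolynomial (Fin (n + 1)) ℂ), P.IsHomogeneous (a + n * b) ∧
      ∀ (M : Type) [Field M] [Algebra ℂ M] (v : Fin (n + 1) → M) (xu : Fin n → Mˣ),
        (∀ i, v i ≠ 0) → (∀ i, (xu i : M) = v i.succ / v 0) →
        aeval v P = (v 0 ^ a * ∏ i : Fin n, v i.succ ^ b) * ep xu g := by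
  induction g using AddMonoidAlgebra.induction_linear with
  | zero =>
    refine ⟨0, fun a b _ _ => ⟨0, MvPolynomial.isHomogeneous_zero _ _ _, fun M _ _ v xu _ _ => ?_⟩⟩
    rw [map_zero, map_zero, mul_zero]
  | add f g hf hg =>
    obtain ⟨k1, h1⟩ := hf
    obtain ⟨k2, h2⟩ := hg
    refine ⟨max k1 k2, fun a b ha hb => ?_⟩
    obtain ⟨P1, a1, b1⟩ := h1 a b ((le_max_left _ _).trans ha) ((le_max_left _ _).trans hb)
    obtain ⟨P2, a2, b2⟩ := h2 a b ((le_max_right _ _).trans ha) ((le_max_right _ _).trans hb)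
    refine ⟨P1 + P2, a1.add a2, fun M _ _ v xu hv hx => ?_⟩
    rw [map_add, b1 M v xu hv hx, b2 M v xu hv hx, map_add]
    ring
  | single m x =>
    set k : ℕ := ∑ i, (m i).natAbs with hk
    have hki : ∀ i, (m i).natAbs ≤ k := fun i =>
      Finset.single_le_sum (f := fun i => (m i).natAbs) (fun i _ => Nat.zero_le _)
        (Finset.mem_univ i)
    have hks : |∑ i, m i| ≤ k := by
      refine (Finset.abs_sum_le_sum_abs _ _).trans ?_
      rw [hk]
      push_cast
      exact le_rfl
    refine ⟨k, fun a b ha hb => ?_⟩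
    set e0 : ℕ := ((a : ℤ) - ∑ i, m i).toNat with he0
    set e : Fin n → ℕ := fun i => ((b : ℤ) + m i).toNat with he
    have h0 : (e0 : ℤ) = a - ∑ i, m i := by
      rw [he0, Int.toNat_of_nonneg]
      have := (abs_le.mp hks).2
      omega
    have h1 : ∀ i, (e i : ℤ) = b + m i := by
      intro i
      rw [he]
      simp only
      rw [Int.toNat_of_nonneg]
      have := hki i
      omega
    have e3 : a + n * b = e0 + ∑ i, e i := by
      have : ((a + n * b : ℕ) : ℤ) = ((e0 + ∑ i, e i : ℕ) : ℤ) := by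
        push_cast
        rw [Finset.sum_congr rfl (fun i _ => h1 i), h0, Finset.sum_add_distrib]
        simp
      exact_mod_cast this
    refine ⟨MvPolynomial.C x * (MvPolynomial.X 0 ^ e0 * ∏ i : Fin n, MvPolynomial.X i.succ ^ e i),
      ?_, ?_⟩
    · have h2 : (MvPolynomial.X 0 ^ e0 * ∏ i : Fin n, MvPolynomial.X i.succ ^ e i :
          MvPolynomial (Fin (n + 1)) ℂ).IsHomogeneous (e0 + ∑ i, e i) := by
        refine MvPolynomial.IsHomogeneous.mul ?_ (MvPolynomial.IsHomogeneous.prod _ _ _
          fun i _ => ?_)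
        · have := (MvPolynomial.isHomogeneous_X ℂ (0 : Fin (n + 1))).pow e0
          rwa [one_mul] at this
        · have := (MvPolynomial.isHomogeneous_X ℂ i.succ).pow (e i)
          rwa [one_mul] at this
      rw [e3]
      have := (MvPolynomial.isHomogeneous_C (Fin (n + 1)) x).mul h2
      rwa [zero_add] at this
    · intro M _ _ v xu hv hx
      have hX0 := hv 0
      rw [ep_single, Algebra.smul_def, map_mul, aeval_C, map_mul, map_prod, map_pow, aeval_X]
      simp only [map_pow, aeval_X]
      have hmon : (xm xu m : M) = v 0 ^ (-∑ i, m i) * ∏ i, v i.succ ^ m i := by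
        unfold xm
        rw [Units.coe_prod, ← Finset.sum_neg_distrib, zpow_sum' _ hX0, ← Finset.prod_mul_distrib]
        refine Finset.prod_congr rfl fun i _ => ?_
        rw [Units.val_zpow_eq_zpow_val, hx i, div_zpow, zpow_neg]
        have := zpow_ne_zero (m i) hX0
        field_simp
      rw [hmon]
      have e1 : v 0 ^ e0 = v 0 ^ a * v 0 ^ (-∑ i, m i) := by
        rw [← zpow_natCast, ← zpow_natCast, ← zpow_add₀ hX0, h0, sub_eq_add_neg]
      have e2 : ∏ i : Fin n, v i.succ ^ e i
          = (∏ i : Fin n, v i.succ ^ b) * ∏ i : Fin n, v i.succ ^ m i := by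
        rw [← Finset.prod_mul_distrib]
        refine Finset.prod_congr rfl fun i _ => ?_
        rw [← zpow_natCast, ← zpow_natCast, ← zpow_add₀ (hv i.succ), h1 i]
      rw [e1, e2]
      ring

/-- the monomial `X_0 ^ k ∏ X_{i+1} ^ k` -/
noncomputable def Cm (n k : ℕ) : MvPolynomial (Fin (n + 1)) ℂ :=
  MvPolynomial.X 0 ^ k * ∏ i : Fin n, MvPolynomial.X i.succ ^ k

theorem Cm_hom (n k : ℕ) : (Cm n k).IsHomogeneous (k + n * k) := by
  have h2 : (MvPolynomial.X 0 ^ k * ∏ i : Fin n, MvPolynomial.X i.succ ^ k :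
      MvPolynomial (Fin (n + 1)) ℂ).IsHomogeneous (k + ∑ _i : Fin n, k) := by
    refine MvPolynomial.IsHomogeneous.mul ?_ (MvPolynomial.IsHomogeneous.prod _ _ _
      fun i _ => ?_)
    · have := (MvPolynomial.isHomogeneous_X ℂ (0 : Fin (n + 1))).pow k
      rwa [one_mul] at this
    · have := (MvPolynomial.isHomogeneous_X ℂ i.succ).pow k
      rwa [one_mul] at this
  rw [Finset.sum_const, Finset.card_univ, Fintype.card_fin, smul_eq_mul] at h2
  exact h2

theorem Cm_aeval {M : Type} [CommRing M] [Algebra ℂ M] (k : ℕ) (v : Fin (n + 1) → M) :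
    aeval v (Cm n k) = v 0 ^ k * ∏ i : Fin n, v i.succ ^ k := by
  unfold Cm
  rw [map_mul, map_pow, aeval_X, map_prod]
  simp only [map_pow, aeval_X]

end forms

section curve

variable {n : ℕ}

theorem val_zero' (c : Curve n) (z : ℂ) : c.val 0 z = 0 := by
  have := c.val_smul 0 (0 : c.Mr) z
  rw [zero_smul, zero_mul] at this
  exact this

/-- evaluation at a point of `U` -/
noncomputable def evz (c : Curve n) {z : ℂ} (hz : z ∈ c.U) : c.Mr →ₐ[ℂ] ℂ :=
  (Pi.evalAlgHom ℂ (fun _ : c.U => ℂ) ⟨z, hz⟩).comp c.Mr.val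

theorem evz_apply (c : Curve n) {z : ℂ} (hz : z ∈ c.U) (f : c.Mr) : evz c hz f = c.val f z := by
  unfold Curve.val
  rw [c.ext_of_mem _ hz]
  rfl

theorem val_aeval (c : Curve n) {τ : Type} (W : τ → c.Mr) (F : MvPolynomial τ ℂ) {z : ℂ}
    (hz : z ∈ c.U) : c.val (aeval W F) z = eval (fun s => c.val (W s) z) F := by
  rw [← evz_apply c hz, ← AlgHom.comp_apply, comp_aeval]
  have : (fun s => evz c hz (W s)) = fun s => c.val (W s) z := funext fun s => evz_apply c hz _
  rw [this]
  rfl

end curve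

end Pool.Agent.Y274.OG
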