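import Pool.Agent.Y274.OG.Geom1

/-!
The theorem for quasi-projective varieties from the theorem for curves: the lift of a curve.
-/

set_option autoImplicit false

namespace Pool.Agent.Y274.OG

open MvPolynomial Pool.Agent.Y192.OG
open Pool.Agent.W602.Cov.R (BiPoly BiHom BiSet)

/-- the lift of a curve to the ring `R` -/
theorem exists_eta (hicl : St_icl) {K : Type} [Field K] [Algebra ℂ K] {n : ℕ} {x : Fin n → Kˣ}
    {R : Subalgebra ℂ K} {j : Lau n →ₐ[ℂ] R} (hj : ∀ g, (j g : K) = ep x g)
    (hint : (j : Lau n →+* R).IsIntegral) {N : ℕ} {X : BiSet N n} {L : Type} [Field L]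
    [Algebra ℂ L] {a : Fin (N + 1) → L} {b : Fin (n + 1) → L} (hb : ∀ i, b i ≠ 0)
    (σ : K →ₐ[ℂ] L) (xb : Fin n → Lˣ) (hxb : ∀ i, (xb i : L) = b i.succ / b 0)
    (hσ : ∀ g, σ (ep x g) = ep xb g) {B : BiPoly N n}
    (hB : ∀ (M : Type) [Field M] [Algebra ℂ M] (u : Fin (N + 1) → M) (v : Fin (n + 1) → M),
      X.Mem u v → aeval (Sum.elim u v) B ≠ 0 →
      ∃ φ : (R.map σ) →ₐ[ℂ] M, ∀ (r : R.map σ) (A C : BiPoly N n) (D D' : ℕ), BiHom A D D' →
        BiHom C D D' → (r : L) * aeval (Sum.elim a b) C = aeval (Sum.elim a b) A →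
        φ r * aeval (Sum.elim u v) C = aeval (Sum.elim u v) A)
    (c : Curve n) (U : Fin (N + 1) → c.Mr) (V : Fin (n + 1) → c.Mr)
    (hV : ∀ i, ∀ z ∈ c.U, c.val (V i) z = c.X i z)
    (hmem : ∀ z ∈ c.U, X.Mem (fun j => c.val (U j) z) (fun i => c.val (V i) z))
    (hBne : ∃ z ∈ c.U, eval (Sum.elim (fun j => c.val (U j) z) (fun i => c.val (V i) z)) B ≠ 0) :
    ∃ η : R →ₐ[ℂ] c.Mr, ∀ g, η (j g) = c.ev g := by
  classical
  have hdom := dom a_ring c
  let M := FractionRing c.Mr
  obtain ⟨p, hp, hpB⟩ := hBne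
  have hinj : Function.Injective (algebraMap c.Mr M) := IsFractionRing.injective c.Mr M
  let ι : c.Mr →ₐ[ℂ] M := IsScalarTower.toAlgHom ℂ c.Mr M
  have hιinj : Function.Injective ι := hinj
  -- polynomials
  have helim : ∀ z : ℂ, (fun s => c.val (Sum.elim U V s) z)
      = Sum.elim (fun j => c.val (U j) z) (fun i => c.val (V i) z) := by
    intro z
    funext s
    cases s <;> rfl
  have hpoly : ∀ (F : BiPoly N n) (z : ℂ), z ∈ c.U → c.val (aeval (Sum.elim U V) F) z
      = eval (Sum.elim (fun j => c.val (U j) z) (fun i => c.val (V i) z)) F := by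
    intro F z hz
    rw [val_aeval c _ F hz, helim]
  have hι : ∀ F : BiPoly N n, aeval (Sum.elim (fun j => ι (U j)) (fun i => ι (V i))) F
      = ι (aeval (Sum.elim U V) F) := by
    intro F
    rw [← AlgHom.comp_apply, comp_aeval]
    congr 2
    funext s
    cases s <;> rfl
  have hι' : ∀ F : MvPolynomial (Fin (n + 1)) ℂ, aeval (fun i => ι (V i)) F
      = ι (aeval V F) := by
    intro F
    rw [← AlgHom.comp_apply, comp_aeval]
  -- the point over the fraction field
  have hM : X.Mem (fun j => ι (U j)) (fun i => ι (V i)) := by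
    obtain ⟨h1, h2, -⟩ := hmem p hp
    refine ⟨?_, ?_, ?_⟩
    · intro h0
      apply h1
      funext j
      have h3 : ι (U j) = 0 := congrFun h0 j
      have h4 : U j = 0 := hιinj (by rw [map_zero]; exact h3)
      rw [h4]
      exact val_zero' c p
    · intro h0
      apply h2
      funext j
      have h3 : ι (V j) = 0 := congrFun h0 j
      have h4 : V j = 0 := hιinj (by rw [map_zero]; exact h3)
      rw [h4]
      exact val_zero' c p
    · intro F hF
      rw [hι]
      have h5 : aeval (Sum.elim U V) F = (0 : c.Mr) := by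
        apply c.val_inj
        intro z hz
        rw [hpoly F z hz, val_zero']
        exact (hmem z hz).2.2 F hF
      rw [h5, map_zero]
  have hBM : aeval (Sum.elim (fun j => ι (U j)) (fun i => ι (V i))) B ≠ 0 := by
    rw [hι]
    intro h0
    have h4 : aeval (Sum.elim U V) B = (0 : c.Mr) := hιinj (by rw [map_zero]; exact h0)
    apply hpB
    rw [← hpoly B p hp, h4, val_zero']
  obtain ⟨φ, hφ⟩ := hB M _ _ hM hBM
  let σR : R →ₐ[ℂ] (R.map σ) := (σ.comp R.val).codRestrict (R.map σ) fun r => ⟨r, r.2, rfl⟩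
  have hσR : ∀ r : R, ((σR r : R.map σ) : L) = σ r := fun r => rfl
  have hVne : ∀ i, ι (V i) ≠ 0 := by
    intro i h0
    have h4 : V i = 0 := hιinj (by rw [map_zero]; exact h0)
    have h5 := hV i p hp
    rw [h4, val_zero'] at h5
    exact hp.2 i h5.symm
  have key : ∀ g : Lau n, φ (σR (j g)) = ι (c.ev g) := by
    intro g
    obtain ⟨k, hk⟩ := hformK g
    obtain ⟨P, hP1, hP2⟩ := hk k k le_rfl le_rfl
    have h1 := hφ (σR (j g)) (rename Sum.inr P) (rename Sum.inr (Cm n k)) 0 (k + n * k)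
      (Pool.Agent.W602.Cov.R.biHom_rename hP1) (Pool.Agent.W602.Cov.R.biHom_rename (Cm_hom n k)) (by
        rw [Pool.Agent.TH152.HY.aeval_inr, Pool.Agent.TH152.HY.aeval_inr, hσR, hj, hσ, Cm_aeval,
          hP2 L b xb hb hxb, mul_comm])
    rw [Pool.Agent.TH152.HY.aeval_inr, Pool.Agent.TH152.HY.aeval_inr] at h1
    have h2 : c.ev g * aeval V (Cm n k) = aeval V P := by
      apply c.val_inj
      intro z hz
      rw [c.val_mul, Pi.mul_apply, val_aeval c V _ hz, val_aeval c V _ hz, val_ev c g hz]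
      have e1 : (fun i => c.val (V i) z) = fun i => c.X i z := funext fun i => hV i z hz
      rw [e1]
      have e2 := hP2 ℂ (fun i => c.X i z)
        (fun i => Units.mk0 (c.X i.succ z / c.X 0 z) (div_ne_zero (hz.2 _) (hz.2 _)))
        hz.2 (fun i => rfl)
      rw [← lev_ep] at e2
      have e3 : eval (fun i => c.X i z) P = aeval (fun i => c.X i z) P := rfl
      have e4 : eval (fun i => c.X i z) (Cm n k) = aeval (fun i => c.X i z) (Cm n k) := rfl
      rw [e3, e4, e2, Cm_aeval, mul_comm]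
      rfl
    have h3 : aeval (fun i => ι (V i)) (Cm n k) ≠ 0 := by
      rw [Cm_aeval]
      exact mul_ne_zero (pow_ne_zero _ (hVne 0))
        (Finset.prod_ne_zero_iff.mpr fun i _ => pow_ne_zero _ (hVne _))
    apply mul_right_cancel₀ h3
    rw [h1, hι', hι', ← map_mul, h2]
  have hrange : ∀ r : R, ∃ z : c.Mr, algebraMap c.Mr M z = φ (σR r) := by
    intro r
    apply hicl n c
    obtain ⟨p, hp1, hp2⟩ := hint r
    refine ⟨p.map (c.ev : Lau n →+* c.Mr), hp1.map _, ?_⟩
    rw [Polynomial.eval₂_map]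
    have h6 : (algebraMap c.Mr M).comp (c.ev : Lau n →+* c.Mr)
        = ((φ.comp σR : R →ₐ[ℂ] M) : R →+* M).comp (j : Lau n →+* R) := by
      refine RingHom.ext fun g => ?_
      exact (key g).symm
    rw [h6]
    have h7 := congrArg ((φ.comp σR : R →ₐ[ℂ] M) : R →+* M) hp2
    rw [Polynomial.hom_eval₂, map_zero] at h7
    exact h7
  choose η0 hη0 using hrange
  refine ⟨{ toFun := η0
            map_one' := hinj (by rw [hη0, map_one, map_one, map_one])
            map_mul' := fun r s => hinj (by rw [map_mul, hη0, hη0, hη0, map_mul, map_mul])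
            map_zero' := hinj (by rw [hη0, map_zero, map_zero, map_zero])
            map_add' := fun r s => hinj (by rw [map_add, hη0, hη0, hη0, map_add, map_add])
            commutes' := fun r => hinj (by
              rw [hη0, AlgHom.commutes, AlgHom.commutes, ← IsScalarTower.algebraMap_apply]) },
    fun g => ?_⟩
  apply hinj
  change algebraMap c.Mr M (η0 (j g)) = _
  rw [hη0, key]
  rfl

end Pool.Agent.Y274.OG
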