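import Pool.Agent.Y274.OG.Geom2

/-!
The theorem for quasi-projective varieties from the theorem for curves: holomorphic maps from the
punctured disc.
-/

set_option autoImplicit false

namespace Pool.Agent.Y274.OG

open Filter Metric Set Topology MvPolynomial Pool.Agent.Y192.OG Pool.Agent.W603.BP
open Pool.Agent.W602.Cov.R (BiPoly BiHom BiSet)

/-- The theorem for discs. -/
theorem disc_geo (hdord : St_dord) (hicl : St_icl) {K : Type} [Field K] [Algebra ℂ K] {n q : ℕ}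
    {x : Fin n → Kˣ} {Q : MvPolynomial (Fin (n + 1)) ℂ} {gQ : Lau n}
    (hgQ : gQ = aeval (Fin.cons (α := fun _ => Lau n) 1
      (fun i => AddMonoidAlgebra.single (Pi.single i 1) (1 : ℂ))) Q) (hQ : Q.IsHomogeneous q)
    {R : Subalgebra ℂ K} {j : Lau n →ₐ[ℂ] R} {f G : Lau n} {κ s μ m : ℕ} {h : Fin s → R}
    (hj : ∀ g, (j g : K) = ep x g) (hint : (j : Lau n →+* R).IsIntegral)
    (hval : ∀ v : R → WithTop ℤ, IsV v → v (j f) = 1 → v (j gQ) ≠ 1 →
        ∀ i, ((κ : ℤ) : WithTop ℤ) ≤ v (h i))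
    (hcurves : ∀ c : Curve n, E.ACl j f κ h μ c → c.ev G ≠ 0 →
      ∀ i, ∃ S : ℂ → ℂ, MeromorphicAt (fun w => S w⁻¹) 0 ∧ ∃ R0 : ℝ, ∀ z, R0 < ‖z‖ →
        c.X i z = S z * c.X 0 z) (hμ : μ ≤ m)
    {N : ℕ} {X D : BiSet N n} (hoff : OrbOff X D Q q m)
    {L : Type} [Field L] [Algebra ℂ L] {a : Fin (N + 1) → L} {b : Fin (n + 1) → L}
    (hb : ∀ i, b i ≠ 0)
    (σ : K →ₐ[ℂ] L) (xb : Fin n → Lˣ) (hxb : ∀ i, (xb i : L) = b i.succ / b 0)
    (hσ : ∀ g, σ (ep x g) = ep xb g) {B : BiPoly N n}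
    (hB : ∀ (M : Type) [Field M] [Algebra ℂ M] (u : Fin (N + 1) → M) (v : Fin (n + 1) → M),
      X.Mem u v → aeval (Sum.elim u v) B ≠ 0 →
      ∃ φ : (R.map σ) →ₐ[ℂ] M, ∀ (r : R.map σ) (A C : BiPoly N n) (D D' : ℕ), BiHom A D D' →
        BiHom C D D' → (r : L) * aeval (Sum.elim a b) C = aeval (Sum.elim a b) A →
        φ r * aeval (Sum.elim u v) C = aeval (Sum.elim u v) A)
    {u : ℂ → Fin (N + 1) → ℂ} {v : ℂ → Fin (n + 1) → ℂ} (huv : Pool.Agent.TH152.HY.QDisc X D u v)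
    (hne : ∃ z ∈ ball (0 : ℂ) 1 \ {0}, (∀ i, v z i ≠ 0) ∧ lev G (tor (v z)) ≠ 0 ∧
      eval (Sum.elim (u z) (v z)) B ≠ 0) :
    Extends v := by
  classical
  have hv := fun j => Pool.Agent.W601.PH.an_of_diffOn huv.diffv j
  have hu := fun j => Pool.Agent.W601.PH.an_of_diffOn huv.diffu j
  have hmem : ∀ z ∈ PB 1, Pool.Agent.TH152.HY.QMem X D (u z) (v z) :=
    fun z hz => huv.mem z (mem_disc.mpr hz)
  have hinv : ∀ z ∈ Ext 1, z⁻¹ ∈ PB 1 := fun z hz =>
    inv_mem_PB one_pos (by rw [inv_one]; exact hz)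
  have hinv' : ∀ w ∈ PB 1, w⁻¹ ∈ Ext 1 := fun w hw => by
    have := inv_mem_Ext hw
    rwa [inv_one] at this
  have hz0 : ∀ z ∈ Ext 1, z ≠ 0 := fun z hz => ext_ne_zero zero_le_one hz
  obtain ⟨p, hp, hp1, hp2, hp3⟩ := hne
  have hpE : p⁻¹ ∈ Ext 1 := hinv' p (mem_disc.mp hp)
  have hVan : ∀ i, AnalyticOnNhd ℂ (fun z => v z⁻¹ i) (Ext 1) := fun i z hz =>
    (hv i z⁻¹ (hinv z hz)).comp_of_eq (analyticAt_inv (hz0 z hz)) rfl
  have hUan : ∀ i, AnalyticOnNhd ℂ (fun z => u z⁻¹ i) (Ext 1) := fun i z hz =>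
    (hu i z⁻¹ (hinv z hz)).comp_of_eq (analyticAt_inv (hz0 z hz)) rfl
  -- the curve
  let c : Curve n :=
    { r0 := 1
      X := fun i z => v z⁻¹ i
      hr0 := le_rfl
      an := hVan
      ncz := by
        intro z hz
        by_contra hcon
        push Not at hcon
        exact (hmem _ (hinv z hz)).1.2.1 (funext hcon)
      nz := fun i => ⟨p⁻¹, hpE, by simp only [inv_inv]; exact hp1 i⟩ }
  have hpU : p⁻¹ ∈ c.U := ⟨hpE, fun i => by change v p⁻¹⁻¹ i ≠ 0; rw [inv_inv]; exact hp1 i⟩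
  let U : Fin (N + 1) → c.Mr := fun i => c.mr (fun z => u z⁻¹ i)
    (fun z hz => (hUan i z hz).meromorphicAt) (fun z hz => hUan i z hz.1)
  let V : Fin (n + 1) → c.Mr := fun i => c.mr (fun z => v z⁻¹ i)
    (fun z hz => (hVan i z hz).meromorphicAt) (fun z hz => hVan i z hz.1)
  have hUv : ∀ z ∈ c.U, (fun i => c.val (U i) z) = u z⁻¹ := fun z hz =>
    funext fun i => c.val_mr _ _ _ hz
  have hVv : ∀ z ∈ c.U, (fun i => c.val (V i) z) = v z⁻¹ := fun z hz =>
    funext fun i => c.val_mr _ _ _ hz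
  obtain ⟨η, hη⟩ := exists_eta hicl hj hint hb σ xb hxb hσ hB c U V
    (fun i z hz => congrFun (hVv z hz) i) (fun z hz => by
      rw [hUv z hz, hVv z hz]
      exact (hmem _ (hinv z hz.1)).1) ⟨p⁻¹, hpU, by
      rw [hUv _ hpU, hVv _ hpU, inv_inv]
      exact hp3⟩
  have hinvord : ∀ (φ : ℂ → ℂ) (z : ℂ), z ≠ 0 → analyticOrderAt (fun w => φ w⁻¹) z
      = analyticOrderAt φ z⁻¹ := by
    intro φ z hz
    have e1 : (fun w => φ w⁻¹) = φ ∘ fun w : ℂ => w⁻¹ := rfl
    have hd : deriv (fun w : ℂ => w⁻¹) z ≠ 0 := by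
      rw [deriv_inv]
      exact neg_ne_zero.mpr (inv_ne_zero (pow_ne_zero _ hz))
    rw [e1, analyticOrderAt_comp_of_deriv_ne_zero (analyticAt_inv hz) hd]
  -- the values of the function given by `Q`
  have hevQ : ∀ w ∈ c.U, c.val (c.ev gQ) w = eval (v w⁻¹) Q * ((v w⁻¹ 0) ^ q)⁻¹ := by
    intro w hw
    rw [hgQ, comp_aeval_apply, val_aeval c _ Q hw]
    have e1 : (fun i => c.val (c.ev ((Fin.cons (α := fun _ => Lau n) 1
        (fun i => AddMonoidAlgebra.single (Pi.single i 1) (1 : ℂ)) : Fin (n + 1) → Lau n) i)) w)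
        = fun i => (v w⁻¹ 0)⁻¹ * v w⁻¹ i := by
      funext i
      refine Fin.cases ?_ (fun i => ?_) i
      · rw [Fin.cons_zero, map_one, c.val_one hw]
        exact (inv_mul_cancel₀ (hw.2 0)).symm
      · rw [Fin.cons_succ, c.ev_single, one_smul, c.val_mon _ hw]
        unfold Curve.monf
        rw [Finset.prod_eq_single i]
        · rw [Pi.single_eq_same, zpow_one]
          change v w⁻¹ i.succ / v w⁻¹ 0 = _
          rw [div_eq_mul_inv, mul_comm]
        · intro k _ hk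
          rw [Pi.single_eq_of_ne hk, zpow_zero]
        · intro h0
          exact absurd (Finset.mem_univ i) h0
    rw [e1]
    have e2 := Pool.Agent.TH152.HY.aeval_scale (b := v w⁻¹) (v w⁻¹ 0)⁻¹ hQ
    have e3 : eval (fun i => (v w⁻¹ 0)⁻¹ * v w⁻¹ i) Q = aeval (fun i => (v w⁻¹ 0)⁻¹ * v w⁻¹ i) Q :=
      rfl
    rw [e3, e2, inv_pow, mul_comm]
    rfl
  have hdo := hdord N n q m X D Q hoff u v huv fun i => ⟨p, hp, hp1 i⟩
  have hacl : E.ACl j f κ h μ c := by
    refine ⟨fun z hz h0 => ?_, η, ⟨hη, fun i z hz hf1 => ?_⟩⟩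
    · obtain ⟨i, hi⟩ := (hdo z⁻¹ (mem_disc.mpr (hinv z hz))).1 h0
      refine ⟨i, ?_⟩
      change (μ : ℕ∞) ≤ analyticOrderAt (fun w => v w⁻¹ i) z
      rw [hinvord (fun w => v w i) z (hz0 z hz)]
      exact le_trans (by exact_mod_cast hμ) hi
    · obtain ⟨o1, o2, -, o4, -, o6⟩ := (a_ord n c).1 z hz.1
      refine hval (fun r => c.ord z (η r)) ⟨?_, ?_, ?_, ?_⟩ ?_ ?_ i
      · change c.ord z (η 1) = 0
        rw [map_one, ← c.mon_zero, o6, (a_ord n c).2.1 z hz]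
        rfl
      · intro a b
        change c.ord z (η (a * b)) = c.ord z (η a) + c.ord z (η b)
        rw [map_mul]
        exact o1 _ _
      · intro a b
        change min (c.ord z (η a)) (c.ord z (η b)) ≤ c.ord z (η (a + b))
        rw [map_add]
        exact o2 _ _
      · intro a
        exact o4 hz _
      · rw [hη]
        exact hf1
      · rw [hη]
        intro h1
        apply (hdo z⁻¹ (mem_disc.mpr (hinv z hz.1))).2 hz.2
        rw [← hinvord (fun w => eval (v w) Q) z (hz0 z hz.1)]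
        have hanQ : AnalyticAt ℂ (fun w => eval (v w⁻¹) Q) z := by
          refine (c.val_an (aeval V Q) z hz).congr ?_
          filter_upwards [c.U_open.mem_nhds hz] with w hw
          rw [val_aeval c V Q hw, hVv w hw]
        have han0 : AnalyticAt ℂ (fun w => ((v w⁻¹ 0) ^ q)⁻¹) z :=
          ((hVan 0 z hz.1).fun_pow q).fun_inv (pow_ne_zero _ (hz.2 0))
        have hcg : c.val (c.ev gQ) =ᶠ[𝓝 z]
            (fun w => eval (v w⁻¹) Q) * fun w => ((v w⁻¹ 0) ^ q)⁻¹ := by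
          filter_upwards [c.U_open.mem_nhds hz] with w hw
          exact hevQ w hw
        unfold Curve.ord at h1
        rw [(c.val_an _ z hz).meromorphicOrderAt_eq, analyticOrderAt_congr hcg,
          analyticOrderAt_mul hanQ han0,
          han0.analyticOrderAt_eq_zero.mpr (inv_ne_zero (pow_ne_zero _ (hz.2 0))), add_zero] at h1
        generalize analyticOrderAt (fun w => eval (v w⁻¹) Q) z = a at h1
        cases a with
        | top =>
          exfalso
          rw [ENat.map_top] at h1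
          exact WithTop.top_ne_one h1
        | coe k =>
          rw [ENat.map_natCast] at h1
          have h2 : (k : ℤ) = 1 := by exact_mod_cast h1
          have h3 : k = 1 := by exact_mod_cast h2
          rw [h3]
          rfl
  have hG : c.ev G ≠ 0 := by
    intro h0
    apply hp2
    have h1 := val_ev c G hpU
    rw [h0, val_zero'] at h1
    have h2 : (fun i => c.xf i p⁻¹) = tor (v p) := by
      funext i
      change v p⁻¹⁻¹ i.succ / v p⁻¹⁻¹ 0 = v p i.succ / v p 0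
      rw [inv_inv]
    rw [← h2]
    exact h1.symm
  refine Pool.Agent.W601.PH.extends_mrel hv (fun z hz => (hmem z hz).1.2.1) (h := fun w => v w 0)
    fun i => ?_
  obtain ⟨S, hS, R0, hRe⟩ := hcurves c hacl hG i
  refine ⟨fun w => S w⁻¹, hS, ?_⟩
  rw [ev_iff]
  set R1 : ℝ := max R0 1 with hR1
  have hR1pos : 0 < R1 := lt_of_lt_of_le one_pos (le_max_right _ _)
  refine ⟨R1⁻¹, inv_pos.mpr hR1pos, ?_⟩
  intro w hw
  have hw' : R1 < ‖w⁻¹‖ := by
    have := inv_mem_Ext hw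
    rwa [inv_inv] at this
  have h1 := hRe w⁻¹ (lt_of_le_of_lt (le_max_left _ _) hw')
  have h2 : v w⁻¹⁻¹ i = S w⁻¹ * v w⁻¹⁻¹ 0 := h1
  rw [inv_inv] at h2
  exact h2

end Pool.Agent.Y274.OG
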